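import Pool.Agent.W663.SX.Stm

/-! # D-optimal state -/

set_option autoImplicit false
open scoped Matrix.Norms.L2Operator Matrix ComplexOrder

noncomputable section

namespace Pool.Agent.W407.SX

open Pool.Agent.W663.SX

/-- `|Q u|^2 ≤ tr(Qᴴ Q) |u|^2` -/
theorem frob {d : ℕ} (Q : Matrix (Fin d) (Fin d) ℂ) (u : Fin d → ℂ) :
    (star (Q *ᵥ u) ⬝ᵥ (Q *ᵥ u)).re ≤ (star u ⬝ᵥ u).re * ((Qᴴ * Q).trace).re := by
  have h1 : (star (Q *ᵥ u) ⬝ᵥ (Q *ᵥ u)).re = ∑ i, ‖(Q *ᵥ u) i‖ ^ 2 := by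
    simp only [dotProduct, Pi.star_apply, Complex.re_sum]
    refine Finset.sum_congr rfl fun i _ => ?_
    rw [← Complex.normSq_eq_norm_sq, Complex.normSq_apply]
    simp
  have h2 : (star u ⬝ᵥ u).re = ∑ i, ‖u i‖ ^ 2 := by
    simp only [dotProduct, Pi.star_apply, Complex.re_sum]
    refine Finset.sum_congr rfl fun i _ => ?_
    rw [← Complex.normSq_eq_norm_sq, Complex.normSq_apply]
    simp
  have h3 : ((Qᴴ * Q).trace).re = ∑ i, ∑ j, ‖Q i j‖ ^ 2 := by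
    simp only [Matrix.trace, Matrix.diag_apply, Matrix.mul_apply, Matrix.conjTranspose_apply,
      Complex.re_sum]
    rw [Finset.sum_comm]
    refine Finset.sum_congr rfl fun i _ => Finset.sum_congr rfl fun j _ => ?_
    rw [← Complex.normSq_eq_norm_sq, Complex.normSq_apply]
    simp
  rw [h1, h2, h3, Finset.mul_sum]
  refine Finset.sum_le_sum fun i _ => ?_
  have h4 : ‖(Q *ᵥ u) i‖ ≤ ∑ j, ‖u j‖ * ‖Q i j‖ := by
    simp only [Matrix.mulVec, dotProduct]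
    refine (norm_sum_le _ _).trans (Finset.sum_le_sum fun j _ => ?_)
    rw [norm_mul, mul_comm]
  calc ‖(Q *ᵥ u) i‖ ^ 2 ≤ (∑ j, ‖u j‖ * ‖Q i j‖) ^ 2 :=
        pow_le_pow_left₀ (norm_nonneg _) h4 2
    _ ≤ (∑ j, ‖u j‖ ^ 2) * ∑ j, ‖Q i j‖ ^ 2 := Finset.sum_mul_sq_le_sq_mul_sq _ _ _

open scoped MatrixOrder in
/-- `c* Y c ≤ (c* X c) tr(X⁻¹ Y)` -/
theorem key {d : ℕ} (X Y : Matrix (Fin d) (Fin d) ℂ) (hX : X.PosDef) (hY : Y.PosSemidef)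
    (c : Fin d → ℂ) :
    (star c ⬝ᵥ (Y *ᵥ c)).re ≤ (star c ⬝ᵥ (X *ᵥ c)).re * ((X⁻¹ * Y).trace).re := by
  obtain ⟨P, hP⟩ := CStarAlgebra.nonneg_iff_eq_star_mul_self.mp hX.posSemidef.nonneg
  obtain ⟨R, hR⟩ := CStarAlgebra.nonneg_iff_eq_star_mul_self.mp hY.nonneg
  rw [Matrix.star_eq_conjTranspose] at hP hR
  have hXu : IsUnit X.det := (Matrix.isUnit_iff_isUnit_det X).1 hX.isUnit
  have hPu : IsUnit P.det := by
    rw [hP, Matrix.det_mul] at hXu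
    exact isUnit_of_mul_isUnit_right hXu
  have hdot : ∀ M : Matrix (Fin d) (Fin d) ℂ, star c ⬝ᵥ ((Mᴴ * M) *ᵥ c) =
      star (M *ᵥ c) ⬝ᵥ (M *ᵥ c) := by
    intro M
    rw [← Matrix.mulVec_mulVec, Matrix.dotProduct_mulVec, Matrix.star_mulVec]
  have h1 := frob (R * P⁻¹) (P *ᵥ c)
  have h2 : (R * P⁻¹) *ᵥ (P *ᵥ c) = R *ᵥ c := by
    rw [Matrix.mulVec_mulVec, Matrix.mul_assoc, Matrix.nonsing_inv_mul _ hPu, Matrix.mul_one]
  have h3 : ((R * P⁻¹)ᴴ * (R * P⁻¹)).trace = (X⁻¹ * Y).trace := by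
    have h4 : X⁻¹ = P⁻¹ * (P⁻¹)ᴴ := by
      rw [hP, Matrix.mul_inv_rev, Matrix.conjTranspose_nonsing_inv]
    calc ((R * P⁻¹)ᴴ * (R * P⁻¹)).trace = (((P⁻¹)ᴴ * (Rᴴ * R)) * P⁻¹).trace := by
          rw [Matrix.conjTranspose_mul]
          simp only [Matrix.mul_assoc]
      _ = (P⁻¹ * ((P⁻¹)ᴴ * (Rᴴ * R))).trace := Matrix.trace_mul_comm _ _
      _ = (X⁻¹ * Y).trace := by rw [h4, hR, Matrix.mul_assoc]
  rw [h2, h3, ← hdot R, ← hdot P, ← hR, ← hP] at h1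
  exact h1

section main

variable {A : Type} [CStarAlgebra A] {d : ℕ}

/-- Gram matrix -/
def Gr (v : Fin d → A) (ρ : A →ₗ[ℂ] ℂ) : Matrix (Fin d) (Fin d) ℂ :=
  Matrix.of fun i j => ρ (star (v i) * v j)

/-- linear combination -/
def lc (v : Fin d → A) (c : Fin d → ℂ) : A := ∑ i, c i • v i

theorem Gr_quad (v : Fin d → A) (ρ : A →ₗ[ℂ] ℂ) (c : Fin d → ℂ) :
    star c ⬝ᵥ (Gr v ρ *ᵥ c) = ρ (star (lc v c) * lc v c) := by
  unfold lc Gr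
  rw [star_sum, Finset.sum_mul_sum, map_sum]
  simp only [dotProduct, Matrix.mulVec, Matrix.of_apply, Pi.star_apply, star_smul,
    map_sum, smul_mul_assoc, mul_smul_comm, map_smul, smul_eq_mul, Finset.mul_sum]
  refine Finset.sum_congr rfl fun i _ => Finset.sum_congr rfl fun j _ => ?_
  ring

theorem Gr_psd (h2 : S_ST) (v : Fin d → A) (ρ : A →ₗ[ℂ] ℂ) (hρ : St ρ) :
    (Gr v ρ).PosSemidef := by
  refine Matrix.PosSemidef.of_dotProduct_mulVec_nonneg ?_ ?_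
  · ext i j
    rw [Matrix.conjTranspose_apply]
    unfold Gr
    simp only [Matrix.of_apply]
    rw [← (h2 A ρ hρ).1]
    congr 1
    rw [star_mul, star_star]
  · intro c
    rw [Gr_quad, Complex.nonneg_iff]
    exact ⟨hρ.nn _, (hρ.im _).symm⟩

/-- convex combinations of states -/
theorem St_comb (ρ σ : A →ₗ[ℂ] ℂ) (hρ : St ρ) (hσ : St σ) (a b : ℝ) (ha : 0 ≤ a) (hb : 0 ≤ b)
    (hab : a + b = 1) : St ((a : ℂ) • ρ + (b : ℂ) • σ) where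
  one := by
    rw [LinearMap.add_apply, LinearMap.smul_apply, LinearMap.smul_apply, hρ.one, hσ.one]
    simp only [smul_eq_mul, mul_one]
    exact_mod_cast hab
  nn x := by
    have h1 := mul_nonneg ha (hρ.nn x)
    have h2 := mul_nonneg hb (hσ.nn x)
    rw [LinearMap.add_apply, LinearMap.smul_apply, LinearMap.smul_apply]
    simp only [smul_eq_mul, Complex.add_re, Complex.re_ofReal_mul]
    linarith
  im x := by
    rw [LinearMap.add_apply, LinearMap.smul_apply, LinearMap.smul_apply]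
    simp only [smul_eq_mul, Complex.add_im, Complex.im_ofReal_mul, hρ.im, hσ.im, mul_zero,
      add_zero]

theorem Gr_comb (v : Fin d → A) (ρ σ : A →ₗ[ℂ] ℂ) (a b : ℝ) :
    Gr v ((a : ℂ) • ρ + (b : ℂ) • σ) = a • Gr v ρ + b • Gr v σ := by
  ext i j
  simp [Gr]

/-- the kernel of the Gram matrix -/
def Nk (v : Fin d → A) (ρ : A →ₗ[ℂ] ℂ) : Submodule ℂ (Fin d → ℂ) :=
  LinearMap.ker (Matrix.mulVecLin (Gr v ρ))

theorem mem_Nk (h2 : S_ST) (v : Fin d → A) (ρ : A →ₗ[ℂ] ℂ) (hρ : St ρ) (c : Fin d → ℂ) :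
    c ∈ Nk v ρ ↔ (ρ (star (lc v c) * lc v c)).re = 0 := by
  unfold Nk
  rw [LinearMap.mem_ker, Matrix.mulVecLin_apply,
    ← (Gr_psd h2 v ρ hρ).dotProduct_mulVec_zero_iff, Gr_quad, Complex.ext_iff]
  constructor
  · intro h
    exact h.1
  · intro h
    exact ⟨h, hρ.im _⟩

theorem exPD (h2 : S_ST) (h3 : S_NS) [Nontrivial A] (v : Fin d → A)
    (hv : ∀ c, lc v c = 0 → c = 0) : ∃ ρ : A →ₗ[ℂ] ℂ, St ρ ∧ (Gr v ρ).PosDef := by
  classical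
  have hex : ∃ m : ℕ, ∃ ρ : A →ₗ[ℂ] ℂ, St ρ ∧ Module.finrank ℂ (Nk v ρ) = m := by
    obtain ⟨ρ, hρ, _⟩ := h3 A 1
    exact ⟨_, ρ, hρ, rfl⟩
  obtain ⟨ρ, hρ, hm⟩ := Nat.find_spec hex
  refine ⟨ρ, hρ, ?_⟩
  have hbot : ∀ c ∈ Nk v ρ, c = 0 := by
    by_contra hcon
    push Not at hcon
    obtain ⟨c, hc, hc0⟩ := hcon
    have hy : lc v c ≠ 0 := fun h => hc0 (hv c h)
    obtain ⟨σ, hσ, hσc⟩ := h3 A (lc v c)
    have hτ := St_comb ρ σ hρ hσ (1 / 2) (1 / 2) (by norm_num) (by norm_num) (by norm_num)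
    have hlt : Nk v ((((1 / 2 : ℝ)) : ℂ) • ρ + (((1 / 2 : ℝ)) : ℂ) • σ) < Nk v ρ := by
      rw [SetLike.lt_iff_le_and_exists]
      have hre : ∀ x, ((((((1 / 2 : ℝ)) : ℂ) • ρ + (((1 / 2 : ℝ)) : ℂ) • σ) :
          A →ₗ[ℂ] ℂ) (star x * x)).re =
          1 / 2 * (ρ (star x * x)).re + 1 / 2 * (σ (star x * x)).re := by
        intro x
        rw [LinearMap.add_apply, LinearMap.smul_apply, LinearMap.smul_apply]
        simp only [smul_eq_mul, Complex.add_re, Complex.re_ofReal_mul]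
      refine ⟨?_, c, hc, ?_⟩
      · intro b hb
        rw [mem_Nk h2 v _ hτ, hre] at hb
        rw [mem_Nk h2 v ρ hρ]
        have h4 := hρ.nn (lc v b)
        have h5 := hσ.nn (lc v b)
        linarith
      · rw [mem_Nk h2 v _ hτ, hre, hσc]
        have h4 := hρ.nn (lc v c)
        have h5 : 0 < ‖lc v c‖ := norm_pos_iff.2 hy
        have h6 : 0 < ‖lc v c‖ ^ 2 := by positivity
        intro h7
        linarith
    have h6 := Submodule.finrank_lt_finrank_of_lt hlt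
    rw [hm] at h6
    exact Nat.find_min hex h6 ⟨_, hτ, rfl⟩
  refine Matrix.PosDef.of_dotProduct_mulVec_pos (Gr_psd h2 v ρ hρ).1 ?_
  intro c hc
  rw [Gr_quad, Complex.pos_iff]
  refine ⟨?_, (hρ.im _).symm⟩
  refine lt_of_le_of_ne (hρ.nn _) ?_
  intro h
  exact hc (hbot c ((mem_Nk h2 v ρ hρ c).2 h.symm))

end main

theorem t (h1 : S_KW) (h2 : S_ST) (h3 : S_NS) : S_DO := by
  intro A _ _ V _
  obtain ⟨v, hv⟩ : ∃ v : Fin (Module.finrank ℂ V) → A,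
      v = fun i => ((Module.finBasis ℂ V i : V) : A) := ⟨_, rfl⟩
  have hlc : ∀ c : Fin (Module.finrank ℂ V) → ℂ,
      lc v c = ((∑ i, c i • Module.finBasis ℂ V i : V) : A) := by
    intro c
    unfold lc
    rw [hv]
    simp
  have hinj : ∀ c, lc v c = 0 → c = 0 := by
    intro c hc
    rw [hlc] at hc
    have h4 : (∑ i, c i • Module.finBasis ℂ V i : V) = 0 := Subtype.ext hc
    have h5 := Fintype.linearIndependent_iff.1 (Module.finBasis ℂ V).linearIndependent c h4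
    exact funext h5
  obtain ⟨C, hC⟩ : ∃ C : ℝ, C = ∑ i, ∑ j, ‖star (v i) * v j‖ := ⟨_, rfl⟩
  obtain ⟨X, ⟨ρ, hρ, hXρ⟩, hXpd, hXopt⟩ := h1 (Module.finrank ℂ V)
    {X | ∃ ρ : A →ₗ[ℂ] ℂ, St ρ ∧ X = Gr v ρ} (by
      rintro X ⟨ρ, hρ, rfl⟩ Y ⟨σ, hσ, rfl⟩ a b ha hb hab
      exact ⟨_, St_comb ρ σ hρ hσ a b ha hb hab, (Gr_comb v ρ σ a b).symm⟩) (by
      rintro X ⟨ρ, hρ, rfl⟩
      exact Gr_psd h2 v ρ hρ) (by
      refine ⟨C, ?_⟩
      rintro X ⟨ρ, hρ, rfl⟩ i j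
      have h4 : ‖Gr v ρ i j‖ ≤ ‖star (v i) * v j‖ := (h2 A ρ hρ).2.2.2 _
      refine h4.trans ?_
      rw [hC]
      refine (Finset.single_le_sum (f := fun j => ‖star (v i) * v j‖)
        (fun j _ => norm_nonneg _) (Finset.mem_univ j)).trans ?_
      exact Finset.single_le_sum (f := fun i => ∑ j, ‖star (v i) * v j‖)
        (fun i _ => Finset.sum_nonneg fun j _ => norm_nonneg _) (Finset.mem_univ i)) (by
      obtain ⟨ρ, hρ, hpd⟩ := exPD h2 h3 v hinj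
      exact ⟨_, ⟨ρ, hρ, rfl⟩, hpd⟩)
  refine ⟨ρ, hρ, ?_⟩
  intro x hx
  obtain ⟨c, hc⟩ : ∃ c : Fin (Module.finrank ℂ V) → ℂ, lc v c = x := by
    refine ⟨fun i => (Module.finBasis ℂ V).repr ⟨x, hx⟩ i, ?_⟩
    rw [hlc, (Module.finBasis ℂ V).sum_repr]
  obtain ⟨σ, hσ, hσx⟩ := h3 A x
  have h4 := key X (Gr v σ) hXpd (Gr_psd h2 v σ hσ) c
  have h5 := hXopt (Gr v σ) ⟨σ, hσ, rfl⟩
  rw [hXρ] at h4 h5
  rw [Gr_quad, Gr_quad, hc, hσx] at h4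
  refine h4.trans ?_
  rw [mul_comm]
  exact mul_le_mul_of_nonneg_right h5 (hρ.nn x)

end Pool.Agent.W407.SX
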